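import Mathlib

set_option autoImplicit false
set_option maxSynthPendingDepth 3
open scoped Classical
open Finset

namespace Pool.Agent.Results.MP_3b56a7_co.EnergyCommon

/-- solutions of `x₁ + ⋯ + x_m = y₁ + ⋯ + y_m` with all variables in `A` -/
noncomputable def Sol (m : ℕ) (A : Finset ℕ) : Finset ((Fin m → ℕ) × (Fin m → ℕ)) :=
  ((Fintype.piFinset fun _ : Fin m => A) ×ˢ (Fintype.piFinset fun _ : Fin m => A)).filter
    (fun p => ∑ i, p.1 i = ∑ i, p.2 i)

theorem char_sum {N : ℕ} {ι : Type} (ψ : AddChar (ZMod N) ℂ) (s : Finset ι) (f : ι → ZMod N) :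
    ψ (∑ i ∈ s, f i) = ∏ i ∈ s, ψ (f i) := by
  induction s using Finset.induction_on with
  | empty => simp
  | insert a s ha ih => rw [sum_insert ha, prod_insert ha, AddChar.map_add_eq_mul, ih]

theorem fourier (m n N : ℕ) [NeZero N] (hN : m * n < N) (A : Finset ℕ) (hA : ∀ x ∈ A, x ≤ n) :
    ∑ j : ZMod N, ‖∑ x ∈ A, ZMod.stdAddChar (j * (x : ZMod N))‖ ^ (2 * m)
      = (N : ℝ) * (Sol m A).card := by
  have h1 : ∀ (j : ZMod N) (s : ZMod N),
      (∑ x ∈ A, ZMod.stdAddChar (j * (s * (x : ZMod N)))) ^ m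
      = ∑ p ∈ Fintype.piFinset (fun _ : Fin m => A),
        ZMod.stdAddChar (j * (s * ((∑ i, p i : ℕ) : ZMod N))) := by
    intro j s
    rw [← Fin.prod_const, prod_univ_sum]
    refine sum_congr rfl (fun p _ => ?_)
    rw [Nat.cast_sum, mul_sum, mul_sum, char_sum]
  have h2 : ∀ j : ZMod N,
      ((‖∑ x ∈ A, ZMod.stdAddChar (j * (x : ZMod N))‖ ^ (2 * m) : ℝ) : ℂ)
      = ∑ p ∈ (Fintype.piFinset fun _ : Fin m => A) ×ˢ (Fintype.piFinset fun _ : Fin m => A),
        ZMod.stdAddChar (j * (((∑ i, p.1 i : ℕ) : ZMod N) - ((∑ i, p.2 i : ℕ) : ZMod N))) := by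
    intro j
    have h3 : (starRingEnd ℂ) (∑ x ∈ A, ZMod.stdAddChar (j * (x : ZMod N)))
        = ∑ x ∈ A, ZMod.stdAddChar (j * (-1 * (x : ZMod N))) := by
      rw [map_sum]
      refine sum_congr rfl (fun x _ => ?_)
      rw [← AddChar.map_neg_eq_conj]
      congr 1
      ring
    have h4 := h1 j 1
    simp only [one_mul] at h4
    rw [pow_mul, Complex.ofReal_pow, Complex.ofReal_pow, ← Complex.mul_conj', mul_pow, h3, h4,
      h1 j (-1), sum_mul_sum, sum_product]
    refine sum_congr rfl (fun p _ => sum_congr rfl (fun q _ => ?_))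
    rw [← AddChar.map_add_eq_mul]
    congr 1
    ring
  have hb : ∀ p ∈ Fintype.piFinset (fun _ : Fin m => A), ∑ i, p i < N := by
    intro p hp
    rw [Fintype.mem_piFinset] at hp
    have := sum_le_card_nsmul univ p n (fun i _ => hA _ (hp i))
    simp only [card_univ, Fintype.card_fin, smul_eq_mul] at this
    exact lt_of_le_of_lt this hN
  apply Complex.ofReal_injective
  rw [Complex.ofReal_sum]
  simp only [h2]
  rw [sum_comm]
  simp only [AddChar.sum_mulShift _ (ZMod.isPrimitive_stdAddChar N), ZMod.card]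
  rw [Sol, card_filter]
  push_cast
  rw [mul_sum]
  refine sum_congr rfl (fun p hp => ?_)
  rw [mem_product] at hp
  have h5 : (∑ i, (p.1 i : ZMod N)) - (∑ i, (p.2 i : ZMod N)) = 0 ↔ ∑ i, p.1 i = ∑ i, p.2 i := by
    rw [sub_eq_zero, ← Nat.cast_sum, ← Nat.cast_sum, ZMod.natCast_eq_natCast_iff',
      Nat.mod_eq_of_lt (hb _ hp.1), Nat.mod_eq_of_lt (hb _ hp.2)]
  simp only [h5]
  split_ifs <;> simp

/-- For every `m ≥ 1`, every number `r` of colours, every finite set `A` of natural numbers and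
every colouring, at least a fraction `r^(1-2m)` of the solutions of
`x₁ + ⋯ + x_m = y₁ + ⋯ + y_m` in `A` is monochromatic. -/
theorem result (m r : ℕ) (hm : 1 ≤ m) (A : Finset ℕ) (c : ℕ → Fin r) :
    (Sol m A).card ≤ r ^ (2 * m - 1) *
      ((Sol m A).filter (fun p => ∃ a : Fin r, ∀ i, c (p.1 i) = a ∧ c (p.2 i) = a)).card := by
  obtain ⟨n, hn⟩ : ∃ n, ∀ x ∈ A, x ≤ n := ⟨A.sup id, fun x hx => le_sup (f := id) hx⟩
  have h1 : ∑ a : Fin r, (Sol m (A.filter (fun x => c x = a))).card ≤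
      ((Sol m A).filter (fun p => ∃ a : Fin r, ∀ i, c (p.1 i) = a ∧ c (p.2 i) = a)).card := by
    rw [← card_biUnion]
    · refine card_le_card (fun p hp => ?_)
      simp only [mem_biUnion, mem_univ, true_and, Sol, mem_filter, mem_product,
        Fintype.mem_piFinset] at hp ⊢
      obtain ⟨a, ⟨h1, h2⟩, h3⟩ := hp
      exact ⟨⟨⟨fun i => (h1 i).1, fun i => (h2 i).1⟩, h3⟩, a, fun i => ⟨(h1 i).2, (h2 i).2⟩⟩
    · intro a _ b _ hab
      rw [Function.onFun, disjoint_left]
      intro p h1 h2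
      simp only [Sol, mem_filter, mem_product, Fintype.mem_piFinset] at h1 h2
      exact hab ((h1.1.1 ⟨0, hm⟩).2.symm.trans (h2.1.1 ⟨0, hm⟩).2)
  refine le_trans ?_ (Nat.mul_le_mul_left _ h1)
  have h2 : ((m * n + 1 : ℕ) : ℝ) * (Sol m A).card ≤ ((m * n + 1 : ℕ) : ℝ) *
      ((r : ℝ) ^ (2 * m - 1) * ∑ a : Fin r, ((Sol m (A.filter (fun x => c x = a))).card : ℝ)) := by
    rw [← fourier m n (m * n + 1) (by omega) A hn, mul_left_comm, mul_sum]
    have h3 : ∀ a : Fin r, ((m * n + 1 : ℕ) : ℝ) *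
        ((Sol m (A.filter (fun x => c x = a))).card : ℝ) = _ := fun a =>
      (fourier m n (m * n + 1) (by omega) _ (fun x hx => hn x (mem_filter.1 hx).1)).symm
    simp only [h3]
    rw [sum_comm, mul_sum]
    refine sum_le_sum (fun j _ => ?_)
    rw [← sum_fiberwise (s := A) (g := c)]
    refine le_trans (pow_le_pow_left₀ (norm_nonneg _) (norm_sum_le _ _) _) ?_
    have h4 := pow_sum_le_card_mul_sum_pow (s := (univ : Finset (Fin r)))
      (f := fun a => ‖∑ x ∈ A.filter (fun x => c x = a),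
        ZMod.stdAddChar (j * (x : ZMod (m * n + 1)))‖) (fun _ _ => norm_nonneg _) (2 * m - 1)
    rw [show 2 * m - 1 + 1 = 2 * m by omega, card_univ, Fintype.card_fin] at h4
    exact h4
  have h5 := le_of_mul_le_mul_left h2 (by positivity)
  exact_mod_cast h5

end Pool.Agent.Results.MP_3b56a7_co.EnergyCommon
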